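import Pool.Agent.H.MP_c69494_co.A

set_option autoImplicit false
open Pool.Agent.H.MP_c69494_co

namespace Pool.Agent.Results.MP_c69494_co.Yes

theorem result (k : ℕ) (hk : 6 ≤ k) (D : V k → V k → Prop) (h1 : ∀ u v, D u v → (G k).Adj u v)
    (h2 : ∀ u v, (G k).Adj u v → (D u v ↔ ¬ D v u)) :
    ¬ ∃! p : Fin k → V k, Function.Injective p ∧ ∀ i j : Fin k, j.1 = i.1 + 1 → D (p i) (p j) := by
  rintro ⟨p, -, hp⟩
  obtain ⟨a, b, c1, c2, c3⟩ := levels D (fun v h => (h1 v v h).ne rfl) (k - 1)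
    (fun i => if h : i < k then p ⟨i, h⟩ else .inl 0) fun f d e i hi => by
      rw [dif_pos (by omega), ← hp (fun i => f i) ⟨fun i j h => by_contra fun c =>
        (lt_or_gt_of_ne c).elim (fun c => d i j c (by omega) h) fun c => d j i c (by omega) h.symm,
        fun i j h => by beta_reduce; rw [h]; exact e i (by omega)⟩]
  exact main hk (p := fun i => if h : i < k then p ⟨i, h⟩ else .inl 0) (fun u v h => (em (D u v)).elim (c1 u v) fun e =>
    (c1 v u (by_contra fun d => e ((h2 u v h).2 d))).symm) c2 c3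

end Pool.Agent.Results.MP_c69494_co.Yes
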